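import Pool.Agent.H62.VK.Tk
import Pool.Agent.H82.LS.Law

/-!
# [H62 VK Fk] THEOREM V for all `k`

`Conf K L s x c e h p`: the primes near the prime `p` at the scale `h` look like `x`: for every `j` there are at least `K`
primes `q ≠ p` with `|q - p - x j h| < e h`, and every prime `q ≠ p` with `|q - p| < c h` satisfies `|q - p - x j h| < e h` for
some `j`; all these primes are `s` modulo `L`.

`thmVk` (from THEOREM A): for every infinite set `A` there is `c > 0` such that for all `x` in `[-c, c] ^ k` and `e > 0`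
the set of `n` with `Conf K L s x c e (log p_n) p_n` has positive upper density along `A`.
`thmRk`: for every `x` in `[-R, R] ^ k` and `e > 0` the set of `n` with `Conf K L s (t x) (t R) (t e) (log p_n) p_n` for some
`t` in `(0, e)` has positive lower density.
-/

set_option autoImplicit false

namespace Pool.Agent.H62.VK

open Filter Finset Pool.Agent.H82.LS

/-- the primes near `p` at the scale `h` look like `x` -/
def Conf {k : ℕ} (K L s : ℕ) (x : Fin k → ℝ) (c e h : ℝ) (p : ℕ) : Prop :=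
  p ≡ s [MOD L] ∧
  (∀ j, ∃ Z : Finset ℕ, K ≤ Z.card ∧
    ∀ q ∈ Z, q.Prime ∧ q ≠ p ∧ q ≡ s [MOD L] ∧ |(q : ℝ) - p - x j * h| < e * h) ∧
  ∀ q : ℕ, q.Prime → q ≠ p → |(q : ℝ) - p| < c * h →
    q ≡ s [MOD L] ∧ ∃ j, |(q : ℝ) - p - x j * h| < e * h

theorem Conf.mono {k K L s : ℕ} {x : Fin k → ℝ} {c e e' h : ℝ} {p : ℕ} (hc : Conf K L s x c e h p) (hh : 0 ≤ h)
    (he : e ≤ e') : Conf K L s x c e' h p := by
  have hle : e * h ≤ e' * h := mul_le_mul_of_nonneg_right he hh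
  obtain ⟨h1, h2, h3⟩ := hc
  refine ⟨h1, fun j => ?_, fun q hq hqp hqd => ?_⟩
  · obtain ⟨Z, hZ, hZ2⟩ := h2 j
    refine ⟨Z, hZ, fun q hq => ?_⟩
    obtain ⟨a1, a2, a3, a4⟩ := hZ2 q hq
    exact ⟨a1, a2, a3, a4.trans_le hle⟩
  · obtain ⟨h5, j, hj⟩ := h3 q hq hqp hqd
    exact ⟨h5, j, hj.trans_le hle⟩

theorem good_conf {k m K : ℕ} {ww : ℝ} (L s : ℕ) (al be w : Fin m → ℝ) (S : Set (Cf k))
    (htree : IsTk K ww al be w 1 S) (h : ℝ) (hh : 0 < h) (N : ℕ) (hN : GoodN L s al be w h N) :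
    ∃ n : ℕ, N ≤ Nat.nth Nat.Prime n ∧ (Nat.nth Nat.Prime n : ℝ) ≤ N + h ∧
      ∃ b ∈ S, Conf K L s b.1 b.2.1 b.2.2 h (Nat.nth Nat.Prime n) := by
  classical
  obtain ⟨hN1, hN2⟩ := hN
  obtain ⟨t1, t2, t3, t4⟩ := htree
  obtain ⟨P, hP⟩ : ∃ P : Finset ℝ, P = ((range (⌊h⌋₊ + 1)).filter
      (fun y => (N + y).Prime)).image (fun y : ℕ => (y : ℝ) / h) := ⟨_, rfl⟩
  have mP : ∀ z, z ∈ P ↔ ∃ y : ℕ, (y : ℝ) ≤ h ∧ (N + y).Prime ∧ (y : ℝ) / h = z := by
    intro z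
    rw [hP, mem_image]
    constructor
    · rintro ⟨y, hy, hz⟩
      rw [mem_filter, mem_range, Nat.lt_succ_iff] at hy
      exact ⟨y, (Nat.le_floor_iff hh.le).1 hy.1, hy.2, hz⟩
    · rintro ⟨y, hy, hy2, hz⟩
      refine ⟨y, ?_, hz⟩
      rw [mem_filter, mem_range, Nat.lt_succ_iff]
      exact ⟨(Nat.le_floor_iff hh.le).2 hy, hy2⟩
  have hcells : ∀ z ∈ P, ∃ j, al j ≤ z ∧ z ≤ be j := by
    intro z hz
    obtain ⟨y, hy, hpr, rfl⟩ := (mP z).1 hz
    obtain ⟨_, d, hd1, hd2⟩ := hN1 y hy hpr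
    exact ⟨d, (le_div_iff₀ hh).2 hd1, (div_le_iff₀ hh).2 hd2⟩
  have hone : ∀ d, OneIn (al d) (be d) h N → OneR P (al d) (be d) := by
    intro d hd
    obtain ⟨y, ⟨hy1, hy2, hpr⟩, huniq⟩ := hd
    have hyh : (y : ℝ) ≤ h := by
      have := (t1 d).2.2
      nlinarith
    refine ⟨(y : ℝ) / h, (mP _).2 ⟨y, hyh, hpr, rfl⟩, ⟨(le_div_iff₀ hh).2 hy1,
      (div_le_iff₀ hh).2 hy2⟩, ?_⟩
    intro z hz hz1 hz2
    obtain ⟨y', hy', hpr', rfl⟩ := (mP z).1 hz
    rw [huniq y' ⟨(le_div_iff₀ hh).1 hz1, (div_le_iff₀ hh).1 hz2, hpr'⟩]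
  have hsum : 1 < ∑ j, (if OneR P (al j) (be j) then w j else 0) := by
    refine hN2.trans_le (Finset.sum_le_sum fun d _ => ?_)
    by_cases hd : OneIn (al d) (be d) h N
    · rw [if_pos hd, if_pos (hone d hd)]
    · rw [if_neg hd]
      split_ifs
      · exact (t3 d).1
      · exact le_rfl
  rcases t4 P hcells with h5 | ⟨y, b, hb, hy1, hy2, hyP, hcl1, hcl2⟩
  · exfalso
    linarith
  obtain ⟨a, ha1, ha2, rfl⟩ := (mP y).1 hyP
  obtain ⟨n, hn⟩ : ∃ n, Nat.nth Nat.Prime n = N + a := ⟨_, Nat.nth_count ha2⟩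
  -- differences of elements
  have hdiff : ∀ (z : ℕ) (t e : ℝ), |(z : ℝ) / h - (a : ℝ) / h - t| < e ↔
      |((N + z : ℕ) : ℝ) - ((N + a : ℕ) : ℝ) - t * h| < e * h := by
    intro z t e
    have e1 : ((N + z : ℕ) : ℝ) - ((N + a : ℕ) : ℝ) - t * h = ((z : ℝ) / h - (a : ℝ) / h - t) * h := by
      push_cast
      field_simp
      ring
    rw [e1, abs_mul, abs_of_pos hh, mul_lt_mul_iff_of_pos_right hh]
  refine ⟨n, by rw [hn]; omega, by rw [hn]; push_cast; linarith, b, hb, ?_⟩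
  rw [hn]
  refine ⟨(hN1 a ha1 ha2).1, fun j => ?_, fun q hq hqa hqd => ?_⟩
  · obtain ⟨Z, hZ, hZc, hZ2⟩ := hcl1 j
    obtain ⟨Y, hY⟩ : ∃ Y : Finset ℕ, Y = (range (⌊h⌋₊ + 1)).filter (fun y : ℕ => (y : ℝ) / h ∈ Z) := ⟨_, rfl⟩
    refine ⟨Y.image (fun y => N + y), ?_, ?_⟩
    · rw [Finset.card_image_of_injective _ (add_right_injective N)]
      refine hZc.trans ?_
      have h6 : Z ⊆ Y.image (fun y : ℕ => (y : ℝ) / h) := by
        intro z hz
        obtain ⟨y', hy'1, hy'2, rfl⟩ := (mP z).1 (hZ hz)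
        refine mem_image_of_mem _ ?_
        rw [hY, mem_filter, mem_range, Nat.lt_succ_iff]
        exact ⟨(Nat.le_floor_iff hh.le).2 hy'1, hz⟩
      exact (Finset.card_le_card h6).trans Finset.card_image_le
    · intro q hq
      obtain ⟨y', hy', rfl⟩ := mem_image.1 hq
      rw [hY, mem_filter] at hy'
      obtain ⟨y'', hy''1, hy''2, hy''3⟩ := (mP _).1 (hZ hy'.2)
      have h7 : y'' = y' := by
        rw [div_left_inj' hh.ne'] at hy''3
        exact_mod_cast hy''3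
      rw [h7] at hy''1 hy''2
      obtain ⟨hzy, hzj⟩ := hZ2 _ hy'.2
      refine ⟨hy''2, fun h6 => hzy ?_, (hN1 y' hy''1 hy''2).1, (hdiff _ _ _).1 hzj⟩
      have : y' = a := by omega
      rw [this]
  · have hqd' := abs_lt.1 hqd
    have h7 : b.2.1 * h ≤ a := by
      rwa [le_div_iff₀ hh] at hy1
    have h8 : (a : ℝ) + b.2.1 * h ≤ h := by
      have h9 : ((a : ℝ) / h + b.2.1) * h ≤ 1 * h := mul_le_mul_of_nonneg_right hy2 hh.le
      rwa [add_mul, div_mul_cancel₀ _ hh.ne', one_mul] at h9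
    have hNq : N ≤ q := by
      have h9 : (N : ℝ) ≤ q := by
        have h10 := hqd'.1
        push_cast at h10
        linarith
      exact_mod_cast h9
    obtain ⟨y', rfl⟩ : ∃ y', q = N + y' := ⟨q - N, by omega⟩
    have hy'h : (y' : ℝ) ≤ h := by
      have h10 := hqd'.2
      push_cast at h10
      linarith
    have hne : (y' : ℝ) / h ≠ (a : ℝ) / h := by
      intro h11
      rw [div_left_inj' hh.ne'] at h11
      have : y' = a := by exact_mod_cast h11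
      exact hqa (by rw [this])
    have hlt : |(y' : ℝ) / h - (a : ℝ) / h| < b.2.1 := by
      have e1 : ((N + y' : ℕ) : ℝ) - ((N + a : ℕ) : ℝ) = ((y' : ℝ) / h - (a : ℝ) / h) * h := by
        push_cast
        field_simp
        ring
      rw [e1, abs_mul, abs_of_pos hh] at hqd
      exact lt_of_mul_lt_mul_right hqd hh.le
    obtain ⟨j, hj⟩ := hcl2 _ ((mP _).2 ⟨y', hy'h, hq, rfl⟩) hne hlt
    exact ⟨(hN1 y' hy'h hq).1, j, (hdiff _ _ _).1 hj⟩

/-- change of the scale -/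
theorem conf_scale {k : ℕ} {K L s : ℕ} {x : Fin k → ℝ} {c e lam η X l : ℝ} {p : ℕ} (hlam : 0 < lam) (hc : 0 < c)
    (he : 0 < e) (hx : ∀ j, |x j| ≤ c) (hη1 : η ≤ 1 / 4) (hη2 : c * η ≤ e / 4) (hX : 0 < X)
    (hl : |l - X| ≤ η * X) (h : Conf K L s x (2 * c) e (lam * X) p) :
    Conf K L s (fun j => lam * x j) (lam * c) (2 * lam * e) l p := by
  have hXl : X * (3 / 4) ≤ l := by
    rw [abs_le] at hl
    nlinarith [hl.1]
  have hlX : l ≤ 2 * X := by
    rw [abs_le] at hl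
    nlinarith [hl.2]
  have main : ∀ (g : ℝ) (j : Fin k), |g - x j * (lam * X)| < e * (lam * X) →
      |g - lam * x j * l| < 2 * lam * e * l := by
    intro g j hg
    have e4 : |x j * (lam * X) - lam * x j * l| ≤ lam * X * (e / 4) := by
      rw [show x j * (lam * X) - lam * x j * l = -(lam * (x j * (l - X))) by ring, abs_neg, abs_mul, abs_mul,
        abs_of_pos hlam]
      have e5 : |x j| * |l - X| ≤ c * (η * X) := mul_le_mul (hx j) hl (abs_nonneg _) hc.le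
      have e6 : c * (η * X) ≤ e / 4 * X := by
        rw [← mul_assoc]
        exact mul_le_mul_of_nonneg_right hη2 hX.le
      have e7 := mul_le_mul_of_nonneg_left (e5.trans e6) hlam.le
      linarith
    have e8 : lam * e * (X * (3 / 4)) ≤ lam * e * l :=
      mul_le_mul_of_nonneg_left hXl (by positivity)
    have e9 : 0 < lam * e * X := by positivity
    calc |g - lam * x j * l| = |(g - x j * (lam * X)) + (x j * (lam * X) - lam * x j * l)| := by
          congr 1; ring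
      _ ≤ |g - x j * (lam * X)| + |x j * (lam * X) - lam * x j * l| := abs_add_le _ _
      _ < 2 * lam * e * l := by nlinarith
  obtain ⟨h1, h2, h3⟩ := h
  refine ⟨h1, fun j => ?_, fun q hq hqp hqd => ?_⟩
  · obtain ⟨Z, hZ, hZ2⟩ := h2 j
    refine ⟨Z, hZ, fun q hq => ?_⟩
    obtain ⟨hq1, hq2, hq3, hq4⟩ := hZ2 q hq
    exact ⟨hq1, hq2, hq3, main _ j hq4⟩
  · have h4 : lam * c * l ≤ 2 * c * (lam * X) := by
      have h5 : lam * c * l ≤ lam * c * (2 * X) := mul_le_mul_of_nonneg_left hlX (by positivity)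
      linarith
    obtain ⟨h5, j, hj⟩ := h3 q hq hqp (hqd.trans_le h4)
    exact ⟨h5, j, main _ j hj⟩

theorem hundredk {k K : ℕ} (hk : 1 ≤ k) (hK : 1 ≤ K) :
    ∃ (w : ℝ) (m n : ℕ) (f : Fin m ≃ Ndk k n), 0 ≤ w ∧ w * (k + K - 1) = 1 ∧ 100 ≤ ∑ i, wtk k w n (f i) := by
  obtain ⟨d, hd⟩ : ∃ d : ℕ, d = k + K - 1 := ⟨_, rfl⟩
  have hd1 : 1 ≤ d := by omega
  have hd0 : (0 : ℝ) < d := by exact_mod_cast hd1
  have hdr : (k : ℝ) + K - 1 = d := by
    rw [hd, Nat.cast_sub (by omega)]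
    push_cast
    ring
  refine ⟨1 / d, _, 100 * d, (Fintype.equivFin (Ndk k (100 * d))).symm, by positivity, ?_, ?_⟩
  · rw [hdr]
    field_simp
  · rw [Equiv.sum_comp (Fintype.equivFin (Ndk k (100 * d))).symm (wtk k (1 / d) (100 * d)), sum_wtk hk]
    push_cast
    rw [mul_assoc, mul_one_div_cancel hd0.ne', mul_one]

/-- a finite set of patterns for the windows gives positive lower density of the union -/
theorem lower_conf {k m K : ℕ} {ww : ℝ} (L s : ℕ) (al be w : Fin m → ℝ) (S : Finset (Cf k))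
    (htree : IsTk K ww al be w 1 (S : Set (Cf k)))
    (hS : ∀ p ∈ S, 0 < p.2.1 ∧ 0 < p.2.2 ∧ ∀ j, |p.1 j| ≤ p.2.1 / 2) (lam δ T : ℝ) (hlam : 0 < lam)
    (hδ : 0 < δ) (hT : 1 ≤ T)
    [∀ x : ℝ, DecidablePred (fun N : ℕ => GoodN L s al be w (lam * Real.log x) N)]
    (h : ∀ᶠ x : ℝ in atTop, δ * x ≤ (((range (⌊T * x⌋₊ + 1)).filter
      (fun N : ℕ => GoodN L s al be w (lam * Real.log x) N)).card : ℝ)) :
    Pool.Agent.H19.LS.PosLower (fun n => ∃ b ∈ S, Conf K L s (fun j => lam * b.1 j) (lam * (b.2.1 / 2))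
      (2 * lam * b.2.2) (Real.log (Nat.nth Nat.Prime n)) (Nat.nth Nat.Prime n)) := by
  refine Pool.Agent.H19.LS.lower_of_windows _ T lam (δ / 4) hT hlam.le (by positivity) ?_
  have hsc : ∀ᶠ x : ℝ in atTop, ∀ b ∈ S, ∀ p : ℕ, δ / 2 * x ≤ p → (p : ℝ) ≤ T * x + lam * Real.log x →
      Conf K L s b.1 b.2.1 b.2.2 (lam * Real.log x) p →
      Conf K L s (fun j => lam * b.1 j) (lam * (b.2.1 / 2)) (2 * lam * b.2.2) (Real.log p) p := by
    refine (eventually_all_finset S).2 fun b hb => ?_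
    obtain ⟨hb1, hb2, hb3⟩ := hS b hb
    obtain ⟨η, hηd⟩ : ∃ η, η = min (1 / 4) (b.2.2 / (2 * b.2.1)) := ⟨_, rfl⟩
    have hη : 0 < η := hηd ▸ lt_min (by norm_num) (by positivity)
    have hη1 : η ≤ 1 / 4 := hηd ▸ min_le_left _ _
    have hη2 : b.2.1 / 2 * η ≤ b.2.2 / 4 := by
      have h1 : η ≤ b.2.2 / (2 * b.2.1) := hηd ▸ min_le_right _ _
      rw [le_div_iff₀ (by positivity)] at h1
      linarith
    filter_upwards [log_near (δ / 2) T lam η (by positivity) hT hlam hη, eventually_gt_atTop (1 : ℝ)]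
      with x hx hx1 p h1 h2 h3
    have hlog : 0 < Real.log x := Real.log_pos hx1
    exact conf_scale hlam (by positivity) hb2 hb3 hη1 hη2 hlog (hx p h1 h2)
      (by rw [show 2 * (b.2.1 / 2) = b.2.1 by ring]; exact h3)
  filter_upwards [h, hsc, eventually_gt_atTop (1 : ℝ), eventually_ge_atTop (4 / δ)]
    with x hx hsc hx1 hx4
  have hx0 : 0 < x := by linarith
  obtain ⟨G, hG1, hG2⟩ := half_card _ δ T x hδ
    (by rw [div_le_iff₀ hδ] at hx4; linarith) hx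
  have hℓ : 0 < lam * Real.log x := mul_pos hlam (Real.log_pos hx1)
  refine ⟨G, hG1, fun N hN => ?_⟩
  obtain ⟨h1, h2, h3⟩ := hG2 N hN
  have hN1 : (N : ℝ) ≤ T * x := (Nat.le_floor_iff (by positivity)).1 h1
  obtain ⟨n, h4, h5, b, hb, h6⟩ := good_conf L s al be w (S : Set (Cf k)) htree _ hℓ N h3
  have h10 : (N : ℝ) ≤ Nat.nth Nat.Prime n := by exact_mod_cast h4
  exact ⟨hN1, n, ⟨b, hb, hsc b hb _ (h2.trans h10) (by linarith) h6⟩, h4, h5⟩

theorem log_nth (n : ℕ) : 0 ≤ Real.log (Nat.nth Nat.Prime n) :=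
  Real.log_nonneg (by exact_mod_cast (Nat.prime_nth_prime n).one_lt.le)

/-- THEOREM V for all `k` -/
theorem thmVk (hA : ThmA) (k K : ℕ) (hk : 1 ≤ k) (hK : 1 ≤ K) (L s : ℕ) (hL : 0 < L) (hs : Nat.Coprime s L)
    (A : Set ℕ) (hinf : A.Infinite) :
    ∃ c : ℝ, 0 < c ∧ ∀ x : Fin k → ℝ, (∀ j, |x j| ≤ c) → ∀ e : ℝ, 0 < e →
      PosAlong A (fun n => Conf K L s x c e (Real.log (Nat.nth Nat.Prime n)) (Nat.nth Nat.Prime n)) := by
  classical
  by_contra hcon
  push Not at hcon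
  obtain ⟨w, m, r, f, hw0, hw, hm⟩ := hundredk hk hK
  obtain ⟨lam, hlam, h1, hA⟩ := hA m (fun i => wtk k w r (f i)) (fun i => wtk_nonneg hw0 _ _) hm L s hL hs
  obtain ⟨Bad, hBad⟩ : ∃ Bad : (Fin k → ℝ) → ℝ → ℝ → Prop, Bad = fun x c e =>
      ¬ PosAlong A (fun n => Conf K L s (fun j => lam * x j) (lam * c) (2 * lam * e)
        (Real.log (Nat.nth Nat.Prime n)) (Nat.nth Nat.Prime n)) := ⟨_, rfl⟩
  have hanti : ∀ x c e e', e' ≤ e → Bad x c e → Bad x c e' := by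
    intro x c e e' hee hb
    rw [hBad] at hb ⊢
    intro hpos
    apply hb
    obtain ⟨d, hd, hinfd⟩ := hpos
    refine ⟨d, hd, hinfd.mono fun M hM => ⟨hM.1, hM.2.trans ?_⟩⟩
    have hfin : ({n : ℕ | n < M ∧ Conf K L s (fun j => lam * x j) (lam * c) (2 * lam * e)
        (Real.log (Nat.nth Nat.Prime n)) (Nat.nth Nat.Prime n)}).Finite :=
      (Set.finite_lt_nat M).subset fun n hn => hn.1
    have hsub : {n : ℕ | n < M ∧ Conf K L s (fun j => lam * x j) (lam * c) (2 * lam * e')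
        (Real.log (Nat.nth Nat.Prime n)) (Nat.nth Nat.Prime n)} ⊆
        {n : ℕ | n < M ∧ Conf K L s (fun j => lam * x j) (lam * c) (2 * lam * e)
        (Real.log (Nat.nth Nat.Prime n)) (Nat.nth Nat.Prime n)} := fun n hn =>
      ⟨hn.1, hn.2.mono (log_nth n) (mul_le_mul_of_nonneg_left hee (by positivity))⟩
    exact_mod_cast Set.ncard_le_ncard hsub hfin
  have hbad : ∀ c : ℝ, 0 < c → ∃ (x : Fin k → ℝ) (e : ℝ), (∀ j, |x j| ≤ c) ∧ 0 < e ∧ Bad x c e := by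
    intro c hc
    obtain ⟨x, hx, e, he, h⟩ := hcon (lam * c) (mul_pos hlam hc)
    refine ⟨fun j => x j / lam, e / (2 * lam), fun j => ?_, by positivity, ?_⟩
    · rw [abs_div, abs_of_pos hlam, div_le_iff₀ hlam]
      linarith [hx j]
    · rw [hBad]
      have h2 : (fun j => lam * (x j / lam)) = x := by
        funext j
        field_simp
      have h3 : 2 * lam * (e / (2 * lam)) = e := by field_simp
      show ¬ PosAlong A (fun n => Conf K L s (fun j => lam * (x j / lam)) (lam * c) (2 * lam * (e / (2 * lam)))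
        (Real.log (Nat.nth Nat.Prime n)) (Nat.nth Nat.Prime n))
      rw [h2, h3]
      exact h
  obtain ⟨lo, hi, S, hS, htree⟩ := treek_bad hk hK hw0 hw Bad hanti hbad r 1 one_pos
  have htree' := htree.reindex f
  obtain ⟨δ, T, hδ, hT, hx⟩ := hA (fun i => lo (f i)) (fun i => hi (f i)) htree'.1 htree'.2.1
    lam hlam le_rfl
  have hlow := lower_conf L s _ _ _ S htree'
    (fun p hp => ⟨(hS p hp).1, (hS p hp).2.2.1, (hS p hp).2.2.2.1⟩) lam δ T hlam hδ hT hx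
  obtain ⟨p, hp, hU⟩ := union_along A hinf S _ hlow
  have h4 := (hS p hp).2.2.2.2
  rw [hBad] at h4
  exact h4 hU

/-- every shape at arbitrarily small scales, positive lower density -/
theorem thmRk (hA : ThmA) (k K : ℕ) (hk : 1 ≤ k) (hK : 1 ≤ K) (L s : ℕ) (hL : 0 < L) (hs : Nat.Coprime s L)
    (x : Fin k → ℝ) (R e : ℝ) (hR : 0 < R) (hx : ∀ j, |x j| ≤ R) (he : 0 < e) :
    Pool.Agent.H19.LS.PosLower (fun n => ∃ t : ℝ, 0 < t ∧ t < e ∧
      Conf K L s (fun j => t * x j) (t * R) (t * e) (Real.log (Nat.nth Nat.Prime n)) (Nat.nth Nat.Prime n)) := by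
  classical
  obtain ⟨w, m, r, f, hw0, hw, hm⟩ := hundredk hk hK
  obtain ⟨lam0, h0, h1, hA⟩ := hA m (fun i => wtk k w r (f i)) (fun i => wtk_nonneg hw0 _ _) hm L s hL hs
  obtain ⟨lam, hlamd⟩ : ∃ lam, lam = min lam0 (e * R) := ⟨_, rfl⟩
  have hlam : 0 < lam := hlamd ▸ lt_min h0 (by positivity)
  have hlam0 : lam ≤ lam0 := hlamd ▸ min_le_left _ _
  have hlam1 : lam ≤ e * R := hlamd ▸ min_le_right _ _
  obtain ⟨Bad, hBad⟩ : ∃ Bad : (Fin k → ℝ) → ℝ → ℝ → Prop, Bad = fun x' c e' =>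
      ∃ t : ℝ, 0 < t ∧ c = t * R ∧ (x' = fun j => t * x j) ∧ 2 * e' ≤ t * e := ⟨_, rfl⟩
  have hanti : ∀ x c e e', e' ≤ e → Bad x c e → Bad x c e' := by
    intro x c e e' hee hb
    rw [hBad] at hb ⊢
    obtain ⟨t, ht, h2, h3, h4⟩ := hb
    exact ⟨t, ht, h2, h3, by linarith⟩
  have hbad : ∀ c : ℝ, 0 < c → ∃ (x : Fin k → ℝ) (e : ℝ), (∀ j, |x j| ≤ c) ∧ 0 < e ∧ Bad x c e := by
    intro c hc
    have ht : 0 < c / R := by positivity
    refine ⟨fun j => c / R * x j, c / R * e / 2, fun j => ?_, by positivity, ?_⟩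
    · rw [abs_mul, abs_of_pos ht]
      calc c / R * |x j| ≤ c / R * R := mul_le_mul_of_nonneg_left (hx j) ht.le
        _ = c := by field_simp
    · rw [hBad]
      exact ⟨c / R, ht, by field_simp, rfl, by linarith⟩
  obtain ⟨lo, hi, S, hS, htree⟩ := treek_bad hk hK hw0 hw Bad hanti hbad r 1 one_pos
  have htree' := htree.reindex f
  obtain ⟨δ, T, hδ, hT, hx⟩ := hA (fun i => lo (f i)) (fun i => hi (f i)) htree'.1 htree'.2.1
    lam hlam hlam0
  have hlow := lower_conf L s _ _ _ S htree'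
    (fun p hp => ⟨(hS p hp).1, (hS p hp).2.2.1, (hS p hp).2.2.2.1⟩) lam δ T hlam hδ hT hx
  obtain ⟨c, hc, hev⟩ := hlow
  refine ⟨c, hc, ?_⟩
  filter_upwards [hev] with M hM
  refine hM.trans ?_
  have hfin : ({n : ℕ | n < M ∧ ∃ t : ℝ, 0 < t ∧ t < e ∧ Conf K L s (fun j => t * x j) (t * R) (t * e)
      (Real.log (Nat.nth Nat.Prime n)) (Nat.nth Nat.Prime n)}).Finite :=
    (Set.finite_lt_nat M).subset fun n hn => hn.1
  refine Nat.cast_le.2 (Set.ncard_le_ncard ?_ hfin)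
  rintro n ⟨hn, b, hb, hconf⟩
  obtain ⟨hb1, hb2, hb3, hb4, hb5⟩ := hS b hb
  rw [hBad] at hb5
  obtain ⟨t, ht, hc1, hx1, he1⟩ := hb5
  refine ⟨hn, lam * t, by positivity, ?_, ?_⟩
  · have h2 : t * R ≤ 1 / 2 := by linarith
    have h3 : lam * t ≤ e * R * t := mul_le_mul_of_nonneg_right hlam1 ht.le
    have h4 : e * (t * R) ≤ e * (1 / 2) := mul_le_mul_of_nonneg_left h2 he.le
    linarith
  · have h2 : (fun j => lam * b.1 j) = fun j => lam * t * x j := by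
      rw [hx1]
      funext j
      ring
    have h3 : lam * (b.2.1 / 2) = lam * t * R := by
      rw [hc1]
      ring
    rw [h2, h3] at hconf
    refine hconf.mono (log_nth n) ?_
    have h4 : lam * (2 * b.2.2) ≤ lam * (t * e) := mul_le_mul_of_nonneg_left he1 hlam.le
    linarith

end Pool.Agent.H62.VK
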