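import Pool.Agent.H62.VK.Fk
import Pool.Agent.H34.RR.Fin

/-!
# [H62 VK Main] the primes near a prime look like any given finite set of points

`Shape K L s x R h e p`: all primes in the interval of radius `R h` around the prime `p` are `s` modulo `L` and, but for
`p`, within `e h` of one of the points `p + x j h`, and each of these points has at least `K` such primes.

`shape_small`: for every `x` in `[-R, R] ^ k` and `e > 0` the `n` such that the prime `p_n` has the shape `x` at some scale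
`0 < h < e log p_n` have positive lower density.
`shape_log`: the scale `h = log p_n`, all `x` in a cube around `0`, positive upper density along any infinite set.
-/

set_option autoImplicit false

namespace Pool.Agent.H62.VK

open Filter Pool.Agent.H82.LS

/-- the primes near `p` at the scale `h` look like `x` -/
def Shape {k : ℕ} (K L s : ℕ) (x : Fin k → ℝ) (R h e : ℝ) (p : ℕ) : Prop :=
  p ≡ s [MOD L] ∧
  (∀ q : ℕ, q.Prime → q ≠ p → |(q : ℝ) - p| < R * h →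
    q ≡ s [MOD L] ∧ ∃ j, |(q : ℝ) - p - x j * h| < e * h) ∧
  ∀ j, ∃ Z : Finset ℕ, K ≤ Z.card ∧
    ∀ q ∈ Z, q.Prime ∧ q ≠ p ∧ q ≡ s [MOD L] ∧ |(q : ℝ) - p - x j * h| < e * h

theorem shape_small (k K : ℕ) (hk : 1 ≤ k) (hK : 1 ≤ K) (L s : ℕ) (hL : 0 < L) (hs : Nat.Coprime s L)
    (x : Fin k → ℝ) (R e : ℝ) (hR : 0 < R) (hx : ∀ j, |x j| ≤ R) (he : 0 < e) :
    ∃ d : ℝ, 0 < d ∧ ∀ᶠ M : ℕ in atTop, d * M ≤ ({n : ℕ | n < M ∧
      ∃ h : ℝ, 0 < h ∧ h < e * Real.log (Nat.nth Nat.Prime n) ∧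
        Shape K L s x R h e (Nat.nth Nat.Prime n)}.ncard : ℝ) := by
  obtain ⟨d, hd, h⟩ := thmRk Pool.Agent.H34.RR.thmA k K hk hK L s hL hs x R e hR hx he
  refine ⟨d, hd, ?_⟩
  filter_upwards [h] with M hM
  refine hM.trans (Nat.cast_le.2 (Set.ncard_le_ncard ?_ ((Set.finite_lt_nat M).subset fun n hn => hn.1)))
  rintro n ⟨hn, t, ht0, hte, h1, h2, h3⟩
  have hlog : 0 < Real.log (Nat.nth Nat.Prime n) :=
    Real.log_pos (by exact_mod_cast (Nat.prime_nth_prime n).one_lt)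
  refine ⟨hn, t * Real.log (Nat.nth Nat.Prime n), mul_pos ht0 hlog, mul_lt_mul_of_pos_right hte hlog, h1,
    fun q hq hqp hqR => ?_, fun j => ?_⟩
  · obtain ⟨h4, j, h5⟩ := h3 q hq hqp (by
      rw [show t * R * Real.log (Nat.nth Nat.Prime n) = R * (t * Real.log (Nat.nth Nat.Prime n)) by ring]
      exact hqR)
    refine ⟨h4, j, ?_⟩
    rw [show x j * (t * Real.log (Nat.nth Nat.Prime n)) = t * x j * Real.log (Nat.nth Nat.Prime n) by ring,
      show e * (t * Real.log (Nat.nth Nat.Prime n)) = t * e * Real.log (Nat.nth Nat.Prime n) by ring]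
    exact h5
  · obtain ⟨Z, hZ, hZ2⟩ := h2 j
    refine ⟨Z, hZ, fun q hq => ?_⟩
    obtain ⟨h4, h5, h6, h7⟩ := hZ2 q hq
    refine ⟨h4, h5, h6, ?_⟩
    rw [show x j * (t * Real.log (Nat.nth Nat.Prime n)) = t * x j * Real.log (Nat.nth Nat.Prime n) by ring,
      show e * (t * Real.log (Nat.nth Nat.Prime n)) = t * e * Real.log (Nat.nth Nat.Prime n) by ring]
    exact h7

theorem shape_log (k K : ℕ) (hk : 1 ≤ k) (hK : 1 ≤ K) (L s : ℕ) (hL : 0 < L) (hs : Nat.Coprime s L)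
    (A : Set ℕ) (hA : A.Infinite) :
    ∃ c : ℝ, 0 < c ∧ ∀ x : Fin k → ℝ, (∀ j, |x j| ≤ c) → ∀ e : ℝ, 0 < e →
      ∃ d : ℝ, 0 < d ∧ {M : ℕ | M ∈ A ∧ d * M ≤ ({n : ℕ | n < M ∧
        Shape K L s x c (Real.log (Nat.nth Nat.Prime n)) e (Nat.nth Nat.Prime n)}.ncard : ℝ)}.Infinite := by
  obtain ⟨c, hc, h⟩ := thmVk Pool.Agent.H34.RR.thmA k K hk hK L s hL hs A hA
  refine ⟨c, hc, fun x hx e he => ?_⟩
  obtain ⟨d, hd, hinf⟩ := h x hx e he
  refine ⟨d, hd, hinf.mono fun M hM => ⟨hM.1, hM.2.trans (Nat.cast_le.2 (Set.ncard_le_ncard ?_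
    ((Set.finite_lt_nat M).subset fun n hn => hn.1)))⟩⟩
  rintro n ⟨hn, h1, h2, h3⟩
  exact ⟨hn, h1, h3, h2⟩

end Pool.Agent.H62.VK
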