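import Pool.Agent.H82.LS.Tr

/-!
# [H62 VK Tk] THEOREM V for all `k`: the deterministic tree lemma with `k` copies

`Pat K x R e P y`: the set `P` has the pattern `x` around `y ∈ P`: for every `j` at least `K` other elements of `P` are within
`e` of `y + x j`, and every other element of `P` at distance `< R` from `y` is within `e` of some `y + x j`.

`IsTk K w`: a family of cells (disjoint closed intervals in `(0, c)`) with weights `≤ w` is a tree for `S` (a finite set of
patterns) if every finite set `P` contained in the cells has `∑ ω_j [exactly one element in cell j] ≤ 1`, or one of the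
patterns of `S` around some `y ∈ P` with `R ≤ y ≤ c - R`. The sum is also at most `w * #P` (`sum_le_card`).
`joink`: root `[u, u + η]` of weight `w = 1 / (k + K - 1)`, copies at `t j = u + (perturbed x j)`, weights divided by `k`. If
the root has exactly one element and all copies have at least `K` elements, this is the new pattern; otherwise the sum is at
most `max (k / k) (w + (k - 1) / k + (K - 1) w / k) = 1`.
-/

set_option autoImplicit false

namespace Pool.Agent.H62.VK

open Filter Finset Pool.Agent.H82.LS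

/-- `P` has the pattern `x` around `y` -/
def Pat {k : ℕ} (K : ℕ) (x : Fin k → ℝ) (R e : ℝ) (P : Finset ℝ) (y : ℝ) : Prop :=
  y ∈ P ∧ (∀ j, ∃ Z : Finset ℝ, Z ⊆ P ∧ K ≤ Z.card ∧ ∀ z ∈ Z, z ≠ y ∧ |z - y - x j| < e) ∧
    ∀ z ∈ P, z ≠ y → |z - y| < R → ∃ j, |z - y - x j| < e

/-- patterns with parameters -/
abbrev Cf (k : ℕ) : Type := (Fin k → ℝ) × ℝ × ℝ

open Classical in
/-- trees -/
def IsTk {k : ℕ} {ι : Type} [Fintype ι] (K : ℕ) (w : ℝ) (lo hi ω : ι → ℝ) (c : ℝ) (S : Set (Cf k)) : Prop :=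
  (∀ j, 0 < lo j ∧ lo j < hi j ∧ hi j < c) ∧ (∀ i j, i ≠ j → hi i < lo j ∨ hi j < lo i) ∧
  (∀ j, 0 ≤ ω j ∧ ω j ≤ w) ∧
  ∀ P : Finset ℝ, (∀ y ∈ P, ∃ j, lo j ≤ y ∧ y ≤ hi j) →
    (∑ j, (if OneR P (lo j) (hi j) then ω j else 0)) ≤ 1 ∨
      ∃ y, ∃ b ∈ S, b.2.1 ≤ y ∧ y + b.2.1 ≤ c ∧ Pat K b.1 b.2.1 b.2.2 P y

open Classical in
/-- every cell with exactly one element takes its own element of `P` -/
theorem sum_le_card {k K : ℕ} {w : ℝ} {ι : Type} [Fintype ι] {lo hi ω : ι → ℝ} {c : ℝ} {S : Set (Cf k)}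
    (hw : 0 ≤ w) (h : IsTk K w lo hi ω c S) (P : Finset ℝ) :
    (∑ j, (if OneR P (lo j) (hi j) then ω j else 0)) ≤ w * P.card := by
  obtain ⟨h1, h2, h3, -⟩ := h
  rw [← Finset.sum_filter]
  have h4 : ∑ j ∈ Finset.univ.filter (fun j => OneR P (lo j) (hi j)), ω j ≤
      ∑ _j ∈ Finset.univ.filter (fun j => OneR P (lo j) (hi j)), w :=
    Finset.sum_le_sum fun j _ => (h3 j).2
  refine h4.trans ?_
  rw [Finset.sum_const, nsmul_eq_mul, mul_comm]
  refine mul_le_mul_of_nonneg_left ?_ hw
  have h5 : ∀ j : ι, ∃ y : ℝ, OneR P (lo j) (hi j) → y ∈ P ∧ lo j ≤ y ∧ y ≤ hi j := by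
    intro j
    by_cases hj : OneR P (lo j) (hi j)
    · obtain ⟨y, hy, hy1, -⟩ := hj
      exact ⟨y, fun _ => ⟨hy, hy1.1, hy1.2⟩⟩
    · exact ⟨0, fun h => absurd h hj⟩
  choose g hg using h5
  have h6 : (Finset.univ.filter (fun j => OneR P (lo j) (hi j))).card ≤ P.card := by
    refine Finset.card_le_card_of_injOn g (fun j hj => ?_) (fun i hi' j hj hij => ?_)
    · rw [Finset.mem_coe, Finset.mem_filter] at hj
      exact (hg j hj.2).1
    · rw [Finset.mem_coe, Finset.mem_filter] at hi' hj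
      obtain ⟨-, a1, a2⟩ := hg i hi'.2
      obtain ⟨-, b1, b2⟩ := hg j hj.2
      by_contra hne
      rcases h2 i j hne with h7 | h7
      · rw [hij] at a2
        linarith
      · rw [hij] at a1
        linarith
  exact_mod_cast h6

/-- the cells of the joined tree -/
noncomputable def klo {k : ℕ} {ι : Type} (lo : ι → ℝ) (u : ℝ) (t : Fin k → ℝ) : Option (Fin k × ι) → ℝ
  | none => u
  | some (i, j) => lo j + t i

noncomputable def khi {k : ℕ} {ι : Type} (hi : ι → ℝ) (u η : ℝ) (t : Fin k → ℝ) : Option (Fin k × ι) → ℝ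
  | none => u + η
  | some (i, j) => hi j + t i

noncomputable def kw {k : ℕ} {ι : Type} (w : ℝ) (ω : ι → ℝ) : Option (Fin k × ι) → ℝ
  | none => w
  | some (_, j) => ω j / k

theorem joink {k K : ℕ} (hk : 1 ≤ k) (hK : 1 ≤ K) {w : ℝ} (hw0 : 0 ≤ w) (hw : w * (k + K - 1) = 1)
    {ι : Type} [Fintype ι] (lo hi ω : ι → ℝ) (η u c R e : ℝ) (t x : Fin k → ℝ)
    (S : Set (Cf k)) (hη : 0 < η) (h : IsTk K w lo hi ω η S) (hu : 0 < u) (huc : u + η < c)
    (ht : ∀ i, 0 ≤ t i) (htc : ∀ i, t i + η ≤ c)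
    (htt : ∀ i j, i ≠ j → t i + η ≤ t j ∨ t j + η ≤ t i) (htu : ∀ i, t i + η ≤ u ∨ u + η ≤ t i)
    (hx : ∀ i, |t i - u - x i| + η < e) (hR : R ≤ u) (hRc : u + η + R ≤ c) :
    IsTk K w (klo lo u t) (khi hi u η t) (kw w ω) c (insert (x, R, e) S) := by
  classical
  have hcard := sum_le_card hw0 h
  obtain ⟨h1, h2, h3, h4⟩ := h
  have hk0 : (0 : ℝ) < k := by exact_mod_cast hk
  have e0 : ∀ i j, klo lo u t (some (i, j)) = lo j + t i := fun i j => rfl
  have f0 : ∀ i j, khi hi u η t (some (i, j)) = hi j + t i := fun i j => rfl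
  have e2 : klo lo u t none = u := rfl
  have f2 : khi hi u η t none = u + η := rfl
  refine ⟨?_, ?_, ?_, ?_⟩
  · rintro (_ | ⟨i, j⟩)
    · rw [e2, f2]
      exact ⟨hu, by linarith, huc⟩
    · have h5 := h1 j
      rw [e0, f0]
      exact ⟨by linarith [h5.1, ht i], by linarith [h5.2.1], by linarith [h5.2.2, htc i]⟩
  · rintro (_ | ⟨i, j⟩) (_ | ⟨i', j'⟩) hne
    · exact absurd rfl hne
    · have h5 := h1 j'
      rw [e2, f2, e0, f0]
      rcases htu i' with h6 | h6
      · right; linarith [h5.2.2]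
      · left; linarith [h5.1]
    · have h5 := h1 j
      rw [e2, f2, e0, f0]
      rcases htu i with h6 | h6
      · left; linarith [h5.2.2]
      · right; linarith [h5.1]
    · rw [e0, f0, e0, f0]
      have g1 := h1 j
      have g2 := h1 j'
      by_cases hi : i = i'
      · subst hi
        have hj : j ≠ j' := fun hh => hne (by rw [hh])
        rcases h2 j j' hj with h | h
        · left; linarith
        · right; linarith
      · rcases htt i i' hi with h6 | h6
        · left; linarith [g1.2.2, g2.1]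
        · right; linarith [g2.2.2, g1.1]
  · rintro (_ | ⟨i, j⟩)
    · exact ⟨hw0, le_rfl⟩
    · have h5 := h3 j
      show 0 ≤ ω j / k ∧ ω j / k ≤ w
      refine ⟨div_nonneg h5.1 hk0.le, ?_⟩
      rw [div_le_iff₀ hk0]
      have hk1 : (1 : ℝ) ≤ k := by exact_mod_cast hk
      nlinarith [h5.2, h5.1]
  · intro P hP
    -- the parts
    have hcase : ∀ y ∈ P, (u ≤ y ∧ y ≤ u + η) ∨
        ∃ i, t i < y ∧ y < t i + η ∧ ∃ j, lo j ≤ y - t i ∧ y - t i ≤ hi j := by
      intro y hy
      obtain ⟨c, hc⟩ := hP y hy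
      rcases c with _ | ⟨i, j⟩
      · left
        rw [e2, f2] at hc
        exact hc
      · right
        rw [e0, f0] at hc
        have h5 := h1 j
        exact ⟨i, by linarith [hc.1, h5.1], by linarith [hc.2, h5.2.2], j, by linarith [hc.1],
          by linarith [hc.2]⟩
    obtain ⟨B, hB⟩ : ∃ B : Fin k → Finset ℝ, B = fun i =>
        (P.filter (fun y => t i < y ∧ y < t i + η)).image (fun y => y - t i) := ⟨_, rfl⟩
    have mB : ∀ i y, y ∈ B i ↔ y + t i ∈ P ∧ 0 < y ∧ y < η := fun i y => by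
      rw [hB, mem_image]
      constructor
      · rintro ⟨z, hz, rfl⟩
        rw [mem_filter] at hz
        rw [sub_add_cancel]
        exact ⟨hz.1, by linarith [hz.2.1], by linarith [hz.2.2]⟩
      · rintro ⟨hz, hz1, hz2⟩
        exact ⟨y + t i, mem_filter.2 ⟨hz, by linarith, by linarith⟩, by ring⟩
    have cB : ∀ i, ∀ y ∈ B i, ∃ j, lo j ≤ y ∧ y ≤ hi j := by
      intro i y hy
      rw [mB] at hy
      obtain ⟨hy1, hy2, hy3⟩ := hy
      rcases hcase _ hy1 with h5 | ⟨i', h5, h6, j, hj1, hj2⟩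
      · exfalso
        rcases htu i with h7 | h7
        · linarith [h5.1]
        · linarith [h5.2]
      · by_cases hi : i = i'
        · subst hi
          exact ⟨j, by linarith, by linarith⟩
        · exfalso
          rcases htt i i' hi with h7 | h7
          · linarith
          · linarith
    by_cases hpat : ∃ i, ∃ y, ∃ b ∈ S, b.2.1 ≤ y ∧ y + b.2.1 ≤ η ∧ Pat K b.1 b.2.1 b.2.2 (B i) y
    · right
      obtain ⟨i, y, b, hb, hy1, hy2, hy3, hy4, hy5⟩ := hpat
      refine ⟨y + t i, b, Set.mem_insert_of_mem _ hb, by linarith [ht i], by linarith [htc i], ?_, ?_, ?_⟩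
      · exact ((mB i y).1 hy3).1
      · intro j
        obtain ⟨Z, hZ, hZc, hZ2⟩ := hy4 j
        refine ⟨Z.image (fun z => z + t i), ?_, ?_, ?_⟩
        · intro z hz
          obtain ⟨z', hz', rfl⟩ := mem_image.1 hz
          exact ((mB i z').1 (hZ hz')).1
        · rw [Finset.card_image_of_injective _ (add_left_injective (t i))]
          exact hZc
        · intro z hz
          obtain ⟨z', hz', rfl⟩ := mem_image.1 hz
          obtain ⟨h5, h6⟩ := hZ2 z' hz'
          refine ⟨fun h => h5 (by linarith), ?_⟩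
          rw [show z' + t i - (y + t i) = z' - y by ring]
          exact h6
      · intro z hz hzy hzR
        rw [abs_lt] at hzR
        have hm : z - t i ∈ B i := by
          rw [mB, sub_add_cancel]
          refine ⟨hz, ?_, ?_⟩
          · linarith [hzR.1]
          · linarith [hzR.2]
        obtain ⟨j, hj⟩ := hy5 (z - t i) hm (fun h => hzy (by linarith)) (by
          rw [abs_lt]
          constructor
          · linarith [hzR.1]
          · linarith [hzR.2])
        refine ⟨j, ?_⟩
        rw [show z - (y + t i) - b.1 j = z - t i - y - b.1 j by ring]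
        exact hj
    · have hsB : ∀ i, (∑ j, (if OneR (B i) (lo j) (hi j) then ω j else 0)) ≤ 1 := by
        intro i
        rcases h4 (B i) (cB i) with h5 | h5
        · exact h5
        · exact absurd ⟨i, h5⟩ hpat
      -- the sum
      have hsum : (∑ j, (if OneR P (klo lo u t j) (khi hi u η t j) then kw w ω j else 0)) =
          (if OneR P u (u + η) then w else 0) +
          ∑ i : Fin k, (∑ j, (if OneR (B i) (lo j) (hi j) then ω j else 0)) / k := by
        rw [Fintype.sum_option, Fintype.sum_prod_type]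
        refine congrArg₂ (· + ·) rfl (Finset.sum_congr rfl fun i _ => ?_)
        rw [Finset.sum_div]
        refine Finset.sum_congr rfl fun j _ => ?_
        rw [e0, f0]
        have h5 : OneR P (lo j + t i) (hi j + t i) ↔ OneR (B i) (lo j) (hi j) := by
          rw [hB, oneR_shift]
          refine oneR_congr fun y hy1 hy2 => ?_
          rw [mem_filter]
          exact ⟨fun h => ⟨h, by linarith [(h1 j).1], by linarith [(h1 j).2.2]⟩, fun h => h.1⟩
        by_cases hA1 : OneR (B i) (lo j) (hi j)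
        · rw [if_pos hA1, if_pos (h5.2 hA1)]
          rfl
        · rw [if_neg hA1, if_neg (fun h => hA1 (h5.1 h)), zero_div]
      rw [hsum]
      have hle1 : ∀ i, (∑ j, (if OneR (B i) (lo j) (hi j) then ω j else 0)) / k ≤ 1 / (k : ℝ) := fun i =>
        div_le_div_of_nonneg_right (hsB i) hk0.le
      by_cases hall : OneR P u (u + η) ∧ ∀ i, K ≤ (B i).card
      · right
        obtain ⟨⟨y, hy, hyu, huniq⟩, hBn⟩ := hall
        refine ⟨y, (x, R, e), Set.mem_insert _ _, ?_, ?_, hy, ?_, ?_⟩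
        · show R ≤ y
          linarith [hyu.1]
        · show y + R ≤ c
          linarith [hyu.2]
        · intro j
          refine ⟨(B j).image (fun z => z + t j), ?_, ?_, ?_⟩
          · intro z hz
            obtain ⟨z', hz', rfl⟩ := mem_image.1 hz
            exact ((mB j z').1 hz').1
          · rw [Finset.card_image_of_injective _ (add_left_injective (t j))]
            exact hBn j
          · intro z hz
            obtain ⟨z', hz', rfl⟩ := mem_image.1 hz
            obtain ⟨hz1, hz2, hz3⟩ := (mB j z').1 hz'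
            refine ⟨fun h => ?_, ?_⟩
            · rcases htu j with h5 | h5
              · linarith [hyu.1]
              · linarith [hyu.2]
            · have h5 := hx j
              have h6 := abs_lt.1 (show |t j - u - x j| < e - η by linarith)
              rw [abs_lt]
              dsimp only
              constructor <;> linarith [hyu.1, hyu.2, h6.1, h6.2]
        · intro z hz hzy _
          rcases hcase z hz with h5 | ⟨i, h5, h6, -⟩
          · exact absurd (huniq z hz h5.1 h5.2) hzy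
          · refine ⟨i, ?_⟩
            have h7 := hx i
            have h8 := abs_lt.1 (show |t i - u - x i| < e - η by linarith)
            rw [abs_lt]
            dsimp only
            constructor <;> linarith [hyu.1, hyu.2, h8.1, h8.2]
      · left
        by_cases c1 : OneR P u (u + η)
        · rw [if_pos c1]
          obtain ⟨i, hBi⟩ : ∃ i, ¬ K ≤ (B i).card := by
            by_contra hcon
            push Not at hcon
            exact hall ⟨c1, hcon⟩
          have h5 : (∑ j, (if OneR (B i) (lo j) (hi j) then ω j else 0)) / k ≤ w * (K - 1) / k := by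
            refine div_le_div_of_nonneg_right ((hcard (B i)).trans ?_) hk0.le
            refine mul_le_mul_of_nonneg_left ?_ hw0
            have h6 : ((B i).card : ℝ) + 1 ≤ K := by exact_mod_cast not_le.1 hBi
            linarith
          rw [← Finset.add_sum_erase _ _ (Finset.mem_univ i)]
          have h7 : ∑ i' ∈ Finset.univ.erase i, (∑ j, (if OneR (B i') (lo j) (hi j) then ω j else 0)) / k ≤
              ∑ _i' ∈ (Finset.univ : Finset (Fin k)).erase i, 1 / (k : ℝ) :=
            Finset.sum_le_sum fun i' _ => hle1 i'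
          rw [Finset.sum_const, Finset.card_erase_of_mem (Finset.mem_univ i), Finset.card_univ,
            Fintype.card_fin, nsmul_eq_mul, Nat.cast_sub hk, Nat.cast_one] at h7
          have h8 : w + (w * (K - 1) / k + ((k : ℝ) - 1) * (1 / k)) = 1 := by
            field_simp
            linarith
          linarith
        · rw [if_neg c1]
          have h7 : ∑ i : Fin k, (∑ j, (if OneR (B i) (lo j) (hi j) then ω j else 0)) / k ≤
              ∑ _i : Fin k, 1 / (k : ℝ) := Finset.sum_le_sum fun i' _ => hle1 i'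
          rw [Finset.sum_const, Finset.card_univ, Fintype.card_fin, nsmul_eq_mul] at h7
          have h8 : (k : ℝ) * (1 / k) = 1 := by field_simp
          linarith

theorem sum_kw {k : ℕ} (hk : 1 ≤ k) {ι : Type} [Fintype ι] (w : ℝ) (ω : ι → ℝ) :
    ∑ j, kw (k := k) w ω j = w + ∑ j, ω j := by
  have hk0 : (0 : ℝ) < k := by exact_mod_cast hk
  rw [Fintype.sum_option, Fintype.sum_prod_type]
  refine congrArg₂ (· + ·) rfl ?_
  have h2 : ∀ i : Fin k, ∑ j, kw (k := k) w ω (some (i, j)) = (∑ j, ω j) / k := by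
    intro i
    rw [Finset.sum_div]
    rfl
  rw [Finset.sum_congr rfl fun i _ => h2 i, Finset.sum_const, Finset.card_univ, Fintype.card_fin,
    nsmul_eq_mul]
  field_simp

theorem IsTk.mono {k K : ℕ} {w : ℝ} {ι : Type} [Fintype ι] {lo hi ω : ι → ℝ} {c c' : ℝ} {S S' : Set (Cf k)}
    (h : IsTk K w lo hi ω c S) (hc : c ≤ c') (hS : S ⊆ S') : IsTk K w lo hi ω c' S' := by
  obtain ⟨h1, h2, h3, h4⟩ := h
  refine ⟨fun j => ⟨(h1 j).1, (h1 j).2.1, (h1 j).2.2.trans_le hc⟩, h2, h3, fun P hP => ?_⟩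
  rcases h4 P hP with h | ⟨y, b, h5, h6, h7, h8⟩
  · exact Or.inl h
  · exact Or.inr ⟨y, b, hS h5, h6, h7.trans hc, h8⟩

/-- other indices -/
theorem IsTk.reindex {k K : ℕ} {w : ℝ} {ι κ : Type} [Fintype ι] [Fintype κ] (f : κ ≃ ι) {lo hi ω : ι → ℝ} {c : ℝ}
    {S : Set (Cf k)} (h : IsTk K w lo hi ω c S) :
    IsTk K w (fun k => lo (f k)) (fun k => hi (f k)) (fun k => ω (f k)) c S := by
  classical
  obtain ⟨h1, h2, h3, h4⟩ := h
  refine ⟨fun j => h1 _, fun i j hij => h2 _ _ (fun h => hij (f.injective h)), fun j => h3 _,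
    fun P hP => ?_⟩
  have h5 := h4 P (fun y hy => by
    obtain ⟨j, hj⟩ := hP y hy
    exact ⟨f j, hj⟩)
  rcases h5 with h5 | h5
  · left
    refine le_trans (le_of_eq ?_) h5
    exact Equiv.sum_comp f (fun j => if OneR P (lo j) (hi j) then ω j else 0)
  · exact Or.inr h5

/-- the empty tree -/
theorem treek_empty {k : ℕ} (K : ℕ) (w c : ℝ) (S : Set (Cf k)) :
    IsTk (ι := Empty) K w (fun j => j.elim) (fun j => j.elim) (fun j => j.elim) c S := by
  classical
  refine ⟨fun j => j.elim, fun j => j.elim, fun j => j.elim, fun P _ => Or.inl ?_⟩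
  rw [Finset.univ_eq_empty, Finset.sum_empty]
  exact zero_le_one

/-- the nodes of the tree of height `n` -/
def Ndk (k : ℕ) : ℕ → Type
  | 0 => Empty
  | n + 1 => Option (Fin k × Ndk k n)

noncomputable instance instFintypeNdk (k : ℕ) : ∀ n, Fintype (Ndk k n)
  | 0 => inferInstanceAs (Fintype Empty)
  | n + 1 =>
    haveI := instFintypeNdk k n
    inferInstanceAs (Fintype (Option (Fin k × Ndk k n)))

/-- the weights of the tree of height `n` -/
noncomputable def wtk (k : ℕ) (w : ℝ) : ∀ n, Ndk k n → ℝ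
  | 0 => fun j => Empty.elim j
  | n + 1 => kw w (wtk k w n)

theorem sum_wtk {k : ℕ} (hk : 1 ≤ k) (w : ℝ) (n : ℕ) : ∑ j, wtk k w n j = n * w := by
  induction n with
  | zero =>
    have h0 : ∑ j, wtk k w 0 j = 0 := Finset.sum_eq_zero fun j _ => Empty.elim j
    rw [h0]
    norm_num
  | succ n ih =>
    show ∑ j : Option (Fin k × Ndk k n), kw w (wtk k w n) j = _
    rw [sum_kw hk, ih]
    push_cast
    ring

theorem wtk_nonneg {k : ℕ} {w : ℝ} (hw : 0 ≤ w) (n : ℕ) (j : Ndk k n) : 0 ≤ wtk k w n j := by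
  induction n with
  | zero => exact Empty.elim j
  | succ n ih =>
    match j with
    | none => exact hw
    | some (i, j) => exact div_nonneg (ih j) (Nat.cast_nonneg k)

/-- perturbation: distinct, not `0`, separated by `3 η` -/
theorem perturb {k : ℕ} (x : Fin k → ℝ) {η : ℝ} (hη : 0 < η) :
    ∃ x' : Fin k → ℝ, (∀ j, |x' j - x j| ≤ 3 * η * (k + 1)) ∧ (∀ j, 3 * η ≤ |x' j|) ∧
      ∀ i j, i ≠ j → 3 * η ≤ |x' i - x' j| := by
  have h3 : 0 < 3 * η := by positivity
  have hk : (0 : ℝ) < (k : ℝ) + 1 := by positivity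
  obtain ⟨m, hm⟩ : ∃ m : Fin k → ℤ, m = fun j =>
      ((k : ℤ) + 1) * ⌊x j / (3 * η * (k + 1))⌋ + ((j : ℕ) : ℤ) + 1 := ⟨_, rfl⟩
  have hm1 : ∀ j, m j = ((k : ℤ) + 1) * ⌊x j / (3 * η * (k + 1))⌋ + ((j : ℕ) : ℤ) + 1 := fun j => by rw [hm]
  have habs : ∀ z : ℤ, z ≠ 0 → 3 * η ≤ |3 * η * (z : ℝ)| := by
    intro z hz
    rw [abs_mul, abs_of_pos h3]
    have h4 : (1 : ℝ) ≤ |(z : ℝ)| := by exact_mod_cast Int.one_le_abs hz
    nlinarith
  refine ⟨fun j => 3 * η * (m j : ℝ), fun j => ?_, fun j => ?_, fun i j hij => ?_⟩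
  · have h4 := Int.floor_le (x j / (3 * η * (k + 1)))
    have h5 := Int.lt_floor_add_one (x j / (3 * η * (k + 1)))
    have hjk : ((j : ℕ) : ℝ) + 1 ≤ k := by exact_mod_cast j.2
    have hj0 : (0 : ℝ) ≤ ((j : ℕ) : ℝ) := Nat.cast_nonneg _
    obtain ⟨F, hF⟩ : ∃ F : ℝ, F = (⌊x j / (3 * η * (k + 1))⌋ : ℝ) := ⟨_, rfl⟩
    rw [← hF] at h4 h5
    rw [le_div_iff₀ (by positivity)] at h4
    rw [div_lt_iff₀ (by positivity)] at h5
    have h6 : ((m j : ℤ) : ℝ) = (k + 1) * F + (j : ℕ) + 1 := by
      rw [hm1, hF]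
      push_cast
      ring
    show |3 * η * (m j : ℝ) - x j| ≤ 3 * η * (k + 1)
    rw [h6, abs_le]
    have h7 : 0 ≤ 3 * η * (((j : ℕ) : ℝ) + 1) := by positivity
    have h8 : 3 * η * (((j : ℕ) : ℝ) + 1) ≤ 3 * η * k := mul_le_mul_of_nonneg_left hjk h3.le
    constructor
    · nlinarith
    · nlinarith
  · refine habs _ fun h0 => ?_
    rw [hm1] at h0
    have hjk := j.2
    have h4 : ((k : ℤ) + 1) ∣ (((j : ℕ) : ℤ) + 1) := by
      refine ⟨-⌊x j / (3 * η * (k + 1))⌋, ?_⟩
      linarith
    have h5 := Int.le_of_dvd (by omega) h4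
    omega
  · show 3 * η ≤ |3 * η * (m i : ℝ) - 3 * η * (m j : ℝ)|
    rw [show 3 * η * (m i : ℝ) - 3 * η * (m j : ℝ) = 3 * η * ((m i - m j : ℤ) : ℝ) by push_cast; ring]
    refine habs _ fun h0 => ?_
    rw [hm1, hm1] at h0
    have hik := i.2
    have hjk := j.2
    have h4 : ((k : ℤ) + 1) ∣ (((i : ℕ) : ℤ) - ((j : ℕ) : ℤ)) := by
      refine ⟨⌊x j / (3 * η * (k + 1))⌋ - ⌊x i / (3 * η * (k + 1))⌋, ?_⟩
      linarith
    have h5 : ((i : ℕ) : ℤ) - ((j : ℕ) : ℤ) = 0 := by
      by_contra h6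
      rcases lt_or_gt_of_ne h6 with h7 | h7
      · have h8 := Int.le_of_dvd (show 0 < -(((i : ℕ) : ℤ) - ((j : ℕ) : ℤ)) by omega) ((dvd_neg).2 h4)
        omega
      · have h8 := Int.le_of_dvd h7 h4
        omega
    exact hij (Fin.ext (by omega))

/-- trees made of bad patterns `(x, c)`, with `R = 2 c` -/
theorem treek_bad {k K : ℕ} (hk : 1 ≤ k) (hK : 1 ≤ K) {w : ℝ} (hw0 : 0 ≤ w) (hw : w * (k + K - 1) = 1) (Bad : (Fin k → ℝ) → ℝ → ℝ → Prop)
    (hanti : ∀ x c e e', e' ≤ e → Bad x c e → Bad x c e')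
    (h : ∀ c : ℝ, 0 < c → ∃ (x : Fin k → ℝ) (e : ℝ), (∀ j, |x j| ≤ c) ∧ 0 < e ∧ Bad x c e)
    (n : ℕ) : ∀ c : ℝ, 0 < c → ∃ (lo hi : Ndk k n → ℝ) (S : Finset (Cf k)),
      (∀ p ∈ S, 0 < p.2.1 ∧ p.2.1 ≤ c ∧ 0 < p.2.2 ∧ (∀ j, |p.1 j| ≤ p.2.1 / 2) ∧
        Bad p.1 (p.2.1 / 2) p.2.2) ∧
      IsTk K w lo hi (wtk k w n) c (S : Set (Cf k)) := by
  classical
  induction n with
  | zero =>
    intro c _
    exact ⟨fun j => Empty.elim j, fun j => Empty.elim j, ∅, fun p hp => absurd hp (Finset.notMem_empty p),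
      treek_empty K w c _⟩
  | succ n ih =>
    intro c hc
    obtain ⟨d, hd⟩ : ∃ d, d = c / 16 := ⟨_, rfl⟩
    have hd0 : 0 < d := by rw [hd]; positivity
    obtain ⟨x, e0, hx, he0, hbad0⟩ := h d hd0
    obtain ⟨e, hed⟩ : ∃ e, e = min e0 d := ⟨_, rfl⟩
    have he : 0 < e := hed ▸ lt_min he0 hd0
    have hee : e ≤ e0 := hed ▸ min_le_left _ _
    have hed' : e ≤ d := hed ▸ min_le_right _ _
    have hbad := hanti x d e0 e hee hbad0
    have hk1 : (0 : ℝ) < (k : ℝ) + 1 := by positivity
    obtain ⟨η, hηd⟩ : ∃ η, η = e / (6 * (k + 1)) := ⟨_, rfl⟩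
    have hη : 0 < η := by rw [hηd]; positivity
    have hη1 : 3 * η * (k + 1) = e / 2 := by
      rw [hηd]
      field_simp
      norm_num
    have hkr : (1 : ℝ) ≤ k := by exact_mod_cast hk
    have hη2 : η ≤ e / 12 := by
      have h1 : η * 2 ≤ η * (k + 1) := mul_le_mul_of_nonneg_left (by linarith) hη.le
      nlinarith
    obtain ⟨x', hx1, hx2, hx3⟩ := perturb x hη
    rw [hη1] at hx1
    obtain ⟨lo, hi, S, hS, htree⟩ := ih η hη
    have hxb : ∀ j, |x' j| ≤ 2 * d := by
      intro j
      have h1 := hx1 j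
      have h2 := hx j
      have h3 : |x' j| ≤ |x' j - x j| + |x j| := by
        have := abs_add_le (x' j - x j) (x j)
        rwa [sub_add_cancel] at this
      linarith
    refine ⟨klo lo (4 * d) (fun j => 4 * d + x' j), khi hi (4 * d) η (fun j => 4 * d + x' j),
      insert (x, 2 * d, e) S, ?_, ?_⟩
    · intro p hp
      rcases Finset.mem_insert.1 hp with rfl | hp
      · refine ⟨by positivity, by show 2 * d ≤ c; linarith, he, ?_, ?_⟩
        · intro j
          have h1 := hx j
          show |x j| ≤ 2 * d / 2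
          linarith
        · show Bad x (2 * d / 2) e
          rw [show 2 * d / 2 = d by ring]
          exact hbad
      · obtain ⟨q1, q2, q3⟩ := hS p hp
        exact ⟨q1, by linarith, q3⟩
    · rw [Finset.coe_insert]
      refine joink hk hK hw0 hw lo hi (wtk k w n) η (4 * d) c (2 * d) e _ x (S : Set (Cf k)) hη htree (by positivity)
        (by linarith) ?_ ?_ ?_ ?_ ?_ (by linarith) (by linarith)
      · intro i
        have h1 := abs_le.1 (hxb i)
        linarith [h1.1]
      · intro i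
        have h1 := abs_le.1 (hxb i)
        linarith [h1.2]
      · intro i j hij
        have h1 := hx3 i j hij
        rcases le_abs.1 h1 with h2 | h2
        · right
          linarith
        · left
          linarith
      · intro i
        have h1 := hx2 i
        rcases le_abs.1 h1 with h2 | h2
        · right
          linarith
        · left
          linarith
      · intro i
        have h1 := hx1 i
        rw [show 4 * d + x' i - 4 * d - x i = x' i - x i by ring]
        linarith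

end Pool.Agent.H62.VK
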